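import Pool.Agent.H92.CK.Targets

/-!
Board ck, module ORD: lowest order of vanishing.
-/

namespace Pool.Agent.H50.CK

open Pool.Agent.H92.CK Pool.Agent.H94.IC Pool.Agent.H94.AC

open Set Metric

theorem ord_aux {E : Type*} [NormedAddCommGroup E] [NormedSpace ℝ E] {f : E → ℝ} {S : Set E}
    {p : E} {r : ℝ} (hp : p ∈ S) (hf : AnalyticOnNhd ℝ f (ball p r))
    (h0 : ∀ x ∈ S, x ∈ ball p r → f x = 0) (hne : ∃ x ∈ ball p r, f x ≠ 0) :
    ∃ (n : ℕ) (w : Fin n → E) (q v : E), q ∈ S ∧ q ∈ ball p r ∧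
      AnalyticOnNhd ℝ (fun x => iteratedFDeriv ℝ n f x w) (ball p r) ∧
      (∀ x ∈ S, x ∈ ball p r → iteratedFDeriv ℝ n f x w = 0) ∧
      fderiv ℝ (fun x => iteratedFDeriv ℝ n f x w) q v ≠ 0 := by
  classical
  obtain ⟨x₀, hx₀, hx₀f⟩ := hne
  have hr : 0 < r := by
    rw [mem_ball] at hx₀
    exact dist_nonneg.trans_lt hx₀
  have hpb : p ∈ ball p r := mem_ball_self hr
  have hex : ∃ m : ℕ, ∃ q ∈ S, q ∈ ball p r ∧ iteratedFDeriv ℝ m f q ≠ 0 := by
    by_contra hcon
    push Not at hcon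
    have hz : ∀ m, iteratedFDeriv ℝ m f p = 0 := fun m => hcon m p hp hpb
    obtain ⟨P, R, hP⟩ := hf p hpb
    have hev : f =ᶠ[nhds p] 0 := by
      have h1 : ∀ y ∈ eball (0 : E) R, f (p + y) = 0 := by
        intro y hy
        have h2 := hP.hasSum_iteratedFDeriv hy
        have h4 : HasSum (fun _ : ℕ => (0 : ℝ)) (f (p + y)) := by
          simp only [hz] at h2
          simpa using h2
        exact (h4.unique hasSum_zero)
      have h5 : ∀ᶠ x in nhds p, x - p ∈ eball (0 : E) R := by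
        have h6 : Filter.Tendsto (fun x => x - p) (nhds p) (nhds 0) := by
          have := ((continuous_id (X := E)).sub (continuous_const (y := p))).tendsto p
          rw [show (id - fun _ : E => p) = fun x => x - p from rfl] at this
          simpa using this
        exact h6 (eball_mem_nhds 0 hP.r_pos)
      filter_upwards [h5] with x hx
      have := h1 _ hx
      rwa [add_sub_cancel] at this
    exact hx₀f (hf.eqOn_zero_of_preconnected_of_eventuallyEq_zero
      (convex_ball p r).isPreconnected hpb hev hx₀)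
  obtain ⟨q, hqS, hqb, hq⟩ := Nat.find_spec hex
  have hmin : ∀ k < Nat.find hex, ∀ x ∈ S, x ∈ ball p r → iteratedFDeriv ℝ k f x = 0 := by
    intro k hk x hxS hxb
    by_contra h
    exact Nat.find_min hex hk ⟨x, hxS, hxb, h⟩
  rcases hm : Nat.find hex with _ | n
  · exfalso
    rw [hm] at hq
    apply hq
    ext m
    rw [iteratedFDeriv_zero_apply, h0 q hqS hqb]
    rfl
  · rw [hm] at hq hmin
    obtain ⟨v, hv⟩ : ∃ v, iteratedFDeriv ℝ (n + 1) f q v ≠ 0 := by
      by_contra h
      push Not at h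
      exact hq (ContinuousMultilinearMap.ext h)
    have han : AnalyticOnNhd ℝ (iteratedFDeriv ℝ n f) (ball p r) := hf.iteratedFDeriv n
    let ev : (ContinuousMultilinearMap ℝ (fun _ : Fin n => E) ℝ) →L[ℝ] ℝ :=
      ContinuousMultilinearMap.apply ℝ (fun _ : Fin n => E) ℝ (Fin.tail v)
    have hg : (fun x => iteratedFDeriv ℝ n f x (Fin.tail v)) =
        fun x => ev (iteratedFDeriv ℝ n f x) := rfl
    refine ⟨n, Fin.tail v, q, v 0, hqS, hqb, ?_, ?_, ?_⟩
    · rw [hg]
      intro x hx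
      exact (ev.analyticAt _).comp (han x hx)
    · intro x hxS hxb
      rw [hmin n (Nat.lt_succ_self n) x hxS hxb]
      rfl
    · rw [hg]
      have h1 : HasFDerivAt (fun x => ev (iteratedFDeriv ℝ n f x))
          (ev.comp (fderiv ℝ (iteratedFDeriv ℝ n f) q)) q :=
        ev.hasFDerivAt.comp q (han q hqb).differentiableAt.hasFDerivAt
      rw [h1.fderiv]
      rw [iteratedFDeriv_succ_apply_left] at hv
      exact hv

theorem pf_ORD : T_ORD := by
  intro f p r S _ hf hp h0 hne
  obtain ⟨n, w, q, v, hqS, hqb, h1, h2, h3⟩ := ord_aux hp hf h0 hne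
  refine ⟨q, hqS, hqb, _, h1, h2, ?_⟩
  intro h
  apply h3
  rw [h]
  rfl

end Pool.Agent.H50.CK
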